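import Pool.Agent.Helper46.NU.Names

/-! # MP_1fe1ca_lc, packet NU2: from codes to a null set -/

open MeasureTheory Set

noncomputable section

namespace NU.PkNU2

open Pool.Agent.Helper97.Ku

section Gen

variable {L : Type} [CompleteBooleanAlgebra L]

theorem le_of_iSup {ι : Sort*} {a b : L} {c : ι → L} (h : a ≤ ⨆ i, c i)
    (k : ∀ i, a ⊓ c i ≤ b) : a ≤ b := by
  rw [← inf_eq_left.mpr h, inf_iSup_eq]
  exact iSup_le k

theorem le_of_iSup2 {ι : Sort*} {P : ι → Prop} {a b : L} {c : ι → L}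
    (h : a ≤ ⨆ i, ⨆ _ : P i, c i) (k : ∀ i, P i → a ⊓ c i ≤ b) : a ≤ b := by
  refine le_of_iSup h fun i => ?_
  rw [inf_iSup_eq]
  exact iSup_le fun hi => k i hi

theorem tr {φ : BSet L → L} (h : BSet.Ext φ) {a : L} {x y : BSet L} (h1 : a ≤ x.eq y)
    (h2 : a ≤ φ x) : a ≤ φ y := le_trans (le_inf h1 h2) (h x y)

theorem tr' {φ : BSet L → L} (h : BSet.Ext φ) {a : L} {x y : BSet L} (h1 : a ≤ x.eq y)
    (h2 : a ≤ φ y) : a ≤ φ x := tr h (by rw [BSet.eq_comm']; exact h1) h2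

theorem suc_le (nat : G_NAT) (n' : BSet L) (i : ℕ) : sucV n' (nn i) ≤ n'.eq (nn (i + 1)) := by
  refine le_trans (iInf_mono fun m => ?_) (BSet.ext_le _ _)
  have h : m.mem (nn (i + 1)) = m.mem (nn i) ⊔ m.eq (nn i) := by
    rw [(nat L).1, (nat L).1]
    apply le_antisymm
    · refine iSup_le fun j => ?_
      rcases Nat.lt_succ_iff_lt_or_eq.mp j.2 with hj | hj
      · exact le_trans (le_iSup (fun j : Fin i => m.eq (nn j.1)) ⟨j.1, hj⟩) le_sup_left
      · rw [hj]; exact le_sup_right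
    · refine sup_le (iSup_le fun j => ?_) ?_
      · exact le_iSup (fun j : Fin (i + 1) => m.eq (nn j.1)) ⟨j.1, by omega⟩
      · exact le_iSup (fun j : Fin (i + 1) => m.eq (nn j.1)) ⟨i, by omega⟩
  rw [h]
  exact le_rfl

theorem nn_om (nat : G_NAT) (n : ℕ) : (nn n : BSet L).mem omN = ⊤ := by
  rw [(nat L).2.1, eq_top_iff]
  refine le_trans ?_ (le_iSup _ n)
  rw [BSet.eq_refl]

end Gen

/-- A good code has no elements with small last element. -/
theorem small {k i : ℕ} (hi : i < k) {F : Set (Finset ℕ)} (h : Good k F) (t : Finset ℕ)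
    (ht : LastN t i) : t ∉ F := by
  intro hF
  have h1 := h.card i
  have h2 : (2 : ℕ) ^ i < 2 ^ k := Nat.pow_lt_pow_right (by norm_num) hi
  have h3 : {t ∈ F | LastN t i}.ncard = 0 := by
    by_contra h4
    have h5 : 1 ≤ {t ∈ F | LastN t i}.ncard := Nat.one_le_iff_ne_zero.mpr h4
    have h6 := Nat.mul_le_mul_right (2 ^ k) h5
    omega
  have h4 : {t ∈ F | LastN t i}.Finite := by
    refine Set.Finite.subset (Finset.range (i + 1)).powerset.finite_toSet ?_
    rintro s ⟨_, hs⟩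
    simp only [Finset.coe_powerset, Set.mem_preimage, Set.mem_powerset_iff, Finset.coe_subset]
    intro m hm
    exact Finset.mem_range.mpr (Nat.lt_succ_of_le (hs.2 m hm))
  rw [Set.ncard_eq_zero h4] at h3
  have h5 : t ∈ {t ∈ F | LastN t i} := ⟨hF, ht⟩
  rw [h3] at h5
  exact h5

section Main

variable {S : Sys} {L : Type} [CompleteBooleanAlgebra L] {e : Set (Pt S) → L}

theorem code (ehom : G_EHOM) (nat : G_NAT) (fn2 : G_FN2) (ex1 : G_EX1) (exj : G_EXJ)
    (cdn : G_CDN) (ij2 : G_IJ2) (he : AlgI S L e) (k : ℕ) (F : Pt S → Set (Finset ℕ))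
    (hF : ∀ t, MeasurableSet {z | t ∈ F z}) (hG : ∀ z, Good k (F z)) :
    codeV omN (nn k) (cdN e F) = ⊤ := by
  obtain ⟨e1, e2, -, e4, e5, e6, e7⟩ := ehom S L e he
  obtain ⟨c1, c2⟩ := cdn S L e he F hF
  set G : BSet L := cdN e F with hGd
  have hmem : ∀ t t₀ : BSet L, BSet.Ext (fun x : BSet L => x.mem G) := fun _ _ => BSet.Ext.mem_left G
  have hbot : ∀ t₀ : Finset ℕ, (∀ z, t₀ ∉ F z) → (fsN t₀ : BSet L).mem G = ⊥ := by
    intro t₀ h
    rw [c2 t₀]
    have : {z | t₀ ∈ F z} = ∅ := by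
      ext z; simp [h z]
    rw [this, e2]
  rw [eq_top_iff]
  refine le_inf ?_ (le_inf ?_ (le_inf ?_ ?_))
  · -- clause 1
    refine le_iInf fun t => ?_
    rw [le_himp_iff, top_inf_eq, c1 t]
    refine iSup_le fun t₀ => ?_
    by_cases h0 : t₀.Nonempty
    · have hl : LastN t₀ (t₀.max' h0) := ⟨Finset.max'_mem _ _, fun m hm => Finset.le_max' _ _ hm⟩
      refine le_trans ?_ (le_iSup _ (nn (t₀.max' h0)))
      rw [nn_om nat, top_inf_eq]
      refine tr' ((ex1 L).2.2.1 _).1 inf_le_right ?_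
      rw [(fn2 L).2.1, bo_true hl]
      exact le_top
    · have : {z | t₀ ∈ F z} = ∅ := by
        ext z
        simp only [Set.mem_ofPred_eq, Set.mem_empty_iff_false, iff_false]
        intro h
        exact h0 ((hG z).ne _ h)
      rw [this, e2, bot_inf_eq]
      exact bot_le
  · -- clause 2
    refine le_iInf fun t => le_iInf fun t' => le_iInf fun n => le_iInf fun n' => ?_
    rw [le_himp_iff, top_inf_eq]
    set a : L := t.mem G ⊓ (n.mem omN ⊓ (lstV t n ⊓ (sucV n' n ⊓ (lstV t' n' ⊓ agbV n t t'))))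
      with ha
    have a1 : a ≤ t.mem G := inf_le_left
    have a2 : a ≤ n.mem omN := le_trans inf_le_right inf_le_left
    have a3 : a ≤ lstV t n := le_trans inf_le_right (le_trans inf_le_right inf_le_left)
    have a4 : a ≤ sucV n' n :=
      le_trans inf_le_right (le_trans inf_le_right (le_trans inf_le_right inf_le_left))
    have a5 : a ≤ lstV t' n' := le_trans inf_le_right (le_trans inf_le_right
      (le_trans inf_le_right (le_trans inf_le_right inf_le_left)))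
    have a6 : a ≤ agbV n t t' := le_trans inf_le_right (le_trans inf_le_right
      (le_trans inf_le_right (le_trans inf_le_right inf_le_right)))
    clear_value a
    refine le_of_iSup (by rw [← (nat L).2.1 n]; exact a2) fun i => ?_
    obtain ⟨b, hb⟩ : ∃ b, b = a ⊓ n.eq (nn i) := ⟨_, rfl⟩
    have b0 : b ≤ a := by rw [hb]; exact inf_le_left
    have bn : b ≤ n.eq (nn i) := by rw [hb]; exact inf_le_right
    rw [← hb]
    have b3 : b ≤ lstV t (nn i) := tr ((ex1 L).2.2.1 _).2 bn (le_trans b0 a3)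
    have b4 : b ≤ n'.eq (nn (i + 1)) :=
      le_trans (tr ((ex1 L).2.2.2.2 _).2 bn (le_trans b0 a4)) (suc_le nat n' i)
    have b5 : b ≤ lstV t' (nn (i + 1)) := tr ((ex1 L).2.2.1 _).2 b4 (le_trans b0 a5)
    have b6 : b ≤ agbV (nn i) t t' := tr ((ex1 L).2.2.2.1 t t').1 bn (le_trans b0 a6)
    refine le_of_iSup2 (le_trans b3 ((fn2 L).1 i t)) fun t₀ h₀ => ?_
    obtain ⟨c, hc⟩ : ∃ c, c = b ⊓ t.eq (fsN t₀) := ⟨_, rfl⟩
    have c0 : c ≤ b := by rw [hc]; exact inf_le_left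
    have ct : c ≤ t.eq (fsN t₀) := by rw [hc]; exact inf_le_right
    rw [← hc]
    refine le_of_iSup2 (le_trans (le_trans c0 b5) ((fn2 L).1 (i + 1) t')) fun t₁ h₁ => ?_
    obtain ⟨d, hd⟩ : ∃ d, d = c ⊓ t'.eq (fsN t₁) := ⟨_, rfl⟩
    have d0 : d ≤ c := by rw [hd]; exact inf_le_left
    have dt : d ≤ t'.eq (fsN t₁) := by rw [hd]; exact inf_le_right
    rw [← hd]
    have d6 : d ≤ agbV (nn i) (fsN t₀) (fsN t₁) := by
      refine tr ((ex1 L).2.2.2.1 _ _).2.2 dt ?_
      refine tr ((ex1 L).2.2.2.1 _ _).2.1 (le_trans d0 ct) ?_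
      exact le_trans d0 (le_trans c0 b6)
    rw [(fn2 L).2.2.2.1] at d6
    by_cases hP : ∀ m < i, (m ∈ t₀ ↔ m ∈ t₁)
    · have d1 : d ≤ (fsN t₀ : BSet L).mem G :=
        tr (BSet.Ext.mem_left G) (le_trans d0 ct) (le_trans d0 (le_trans c0 (le_trans b0 a1)))
      have d2 : d ≤ (fsN t₁ : BSet L).mem G := by
        refine le_trans d1 ?_
        rw [c2, c2, he.le _ _ (hF _) (hF _)]
        have : {z | t₀ ∈ F z} \ {z | t₁ ∈ F z} = ∅ := by
          ext z
          simp only [Set.mem_sdiff, Set.mem_ofPred_eq, Set.mem_empty_iff_false, iff_false, not_and,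
            not_not]
          intro hz
          exact (hG z).mono t₀ t₁ i hz h₀ h₁ hP
        rw [this, ← (e7 ∅ MeasurableSet.empty).1, e2]
      exact tr' (BSet.Ext.mem_left G) dt d2
    · rw [bo_false hP] at d6
      exact le_trans d6 bot_le
  · -- clause 3
    refine le_iInf fun n => le_iInf fun t => ?_
    rw [le_himp_iff, top_inf_eq, le_compl_iff_disjoint_right, disjoint_iff_inf_le]
    set a : L := (n.mem omN ⊓ (n.mem (nn k) ⊓ t.mem G)) ⊓ lstV t n with ha
    have a1 : a ≤ t.mem G := le_trans inf_le_left (le_trans inf_le_right inf_le_right)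
    have a2 : a ≤ n.mem (nn k) := le_trans inf_le_left (le_trans inf_le_right inf_le_left)
    have a3 : a ≤ lstV t n := inf_le_right
    clear_value a
    refine le_of_iSup (by rw [← (nat L).1 k n]; exact a2) fun i => ?_
    obtain ⟨b, hb⟩ : ∃ b, b = a ⊓ n.eq (nn i.1) := ⟨_, rfl⟩
    have b0 : b ≤ a := by rw [hb]; exact inf_le_left
    have bn : b ≤ n.eq (nn i.1) := by rw [hb]; exact inf_le_right
    rw [← hb]
    have b3 : b ≤ lstV t (nn i.1) := tr ((ex1 L).2.2.1 _).2 bn (le_trans b0 a3)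
    refine le_of_iSup2 (le_trans b3 ((fn2 L).1 i.1 t)) fun t₀ h₀ => ?_
    obtain ⟨c, hc⟩ : ∃ c, c = b ⊓ t.eq (fsN t₀) := ⟨_, rfl⟩
    have c0 : c ≤ b := by rw [hc]; exact inf_le_left
    have ct : c ≤ t.eq (fsN t₀) := by rw [hc]; exact inf_le_right
    rw [← hc]
    have d1 : c ≤ (fsN t₀ : BSet L).mem G :=
      tr (BSet.Ext.mem_left G) ct (le_trans c0 (le_trans b0 a1))
    rw [hbot t₀ fun z => small i.2 (hG z) t₀ h₀] at d1
    exact d1
  · -- clause 4
    refine le_iInf fun n => ?_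
    rw [le_himp_iff, top_inf_eq]
    have hext : BSet.Ext (fun n : BSet L => injV (fun t => t.mem G ⊓ lstV t n)
        (fun u => subV u n ⊓ ⨅ m : BSet L, (m.mem u ⇨ (m.mem (nn k))ᶜ))) := by
      refine exj L (fun n t => t.mem G ⊓ lstV t n)
        (fun n u => subV u n ⊓ ⨅ m : BSet L, (m.mem u ⇨ (m.mem (nn k))ᶜ)) ?_ ?_
      · intro t
        exact BSet.Ext.inf (BSet.Ext.const _) ((ex1 L).2.2.1 t).2
      · intro u
        exact BSet.Ext.inf ((ex1 L).1 u).2 (BSet.Ext.const _)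
    refine le_of_iSup (c := fun i => n.eq (nn i)) (by rw [← (nat L).2.1 n]; exact inf_le_left)
      fun i => ?_
    obtain ⟨b, hb⟩ : ∃ b, b = (n.mem omN ⊓ (n.mem (nn k))ᶜ) ⊓ n.eq (nn i) := ⟨_, rfl⟩
    have bn : b ≤ n.eq (nn i) := by rw [hb]; exact inf_le_right
    have bk : b ≤ (n.mem (nn k))ᶜ := by rw [hb]; exact le_trans inf_le_left inf_le_right
    rw [← hb]
    by_cases hik : i < k
    · have : b ≤ ((nn i : BSet L).mem (nn k))ᶜ :=
        tr (BSet.Ext.compl (BSet.Ext.mem_left (nn k))) bn bk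
      rw [(nat L).2.2.2, bo_true hik, compl_top] at this
      exact le_trans this bot_le
    · refine tr' hext bn ?_
      have := ij2 S L e he k i F hF hG (not_lt.mp hik)
      rw [this]
      exact le_top

theorem cover (ehom : G_EHOM) (nat : G_NAT) (fn2 : G_FN2) (ex1 : G_EX1)
    (rea : G_REA) (cdn : G_CDN) (he : AlgI S L e) (F : Pt S → Set (Finset ℕ))
    (hF : ∀ t, MeasurableSet {z | t ∈ F z}) (M : BSet L) (hM : realsV omN M = ⊤)
    (hw : ∀ (w : Pt S → ℕ → Bool), Measurable w →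
      (rnN e w).mem M ≤ e {z | w z ∈ OpenOf (F z)}) :
    covV (cdN e F) M = ⊤ := by
  obtain ⟨e1, e2, -, e4, e5, e6, e7⟩ := ehom S L e he
  obtain ⟨c1, c2⟩ := cdn S L e he F hF
  obtain ⟨r1, r2, r3, r4⟩ := rea S L e he
  rw [eq_top_iff]
  refine le_iInf fun x => ?_
  rw [le_himp_iff, top_inf_eq]
  obtain ⟨w, wm, hx⟩ := r3 x
  have h1 : x.mem M ≤ x.eq (rnN e w) := by
    refine le_trans ?_ hx
    have := iInf_le (fun x : BSet L => (x.mem M ⇨ subV x omN)) x
    rw [show (⨅ x : BSet L, (x.mem M ⇨ subV x omN)) = ⊤ from hM, top_le_iff, himp_eq_top_iff]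
      at this
    exact this
  have h2 : x.mem M ≤ (rnN e w).mem M := tr (BSet.Ext.mem_left M) h1 le_rfl
  have h3 : x.mem M ≤ e {z | w z ∈ OpenOf (F z)} := le_trans h2 (hw w wm)
  have hK : ∀ p : Finset ℕ × ℕ, MeasurableSet
      ({z | p.1 ∈ F z} ∩ {z | ∀ m < p.2, (m ∈ p.1 ↔ w z m = true)}) := by
    intro p
    refine (hF p.1).inter ?_
    have : {z : Pt S | ∀ m < p.2, (m ∈ p.1 ↔ w z m = true)} =
        ⋂ m : ℕ, ⋂ _ : m < p.2, {z | (m ∈ p.1 ↔ w z m = true)} := by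
      ext z; simp
    rw [this]
    refine MeasurableSet.iInter fun m => MeasurableSet.iInter fun _ => ?_
    have hm : MeasurableSet {z : Pt S | w z m = true} :=
      (measurable_pi_iff.mp wm m) (measurableSet_singleton true)
    by_cases hmp : m ∈ p.1
    · simpa [hmp] using hm
    · have h9 : {z : Pt S | (m ∈ p.1 ↔ w z m = true)} = {z : Pt S | w z m = true}ᶜ := by
        ext z; simp [hmp]
      rw [h9]
      exact hm.compl
  have h4 : {z | w z ∈ OpenOf (F z)} = ⋃ p : {p : Finset ℕ × ℕ // LastN p.1 p.2},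
      ({z | p.1.1 ∈ F z} ∩ {z | ∀ m < p.1.2, (m ∈ p.1.1 ↔ w z m = true)}) := by
    ext z
    simp only [OpenOf, Cyl, Set.mem_ofPred_eq, Set.mem_iUnion, Set.mem_inter_iff]
    constructor
    · rintro ⟨t, ht, n, hn, h⟩
      exact ⟨⟨(t, n), hn⟩, ht, fun m hm => (h m hm).symm⟩
    · rintro ⟨⟨⟨t, n⟩, hn⟩, ht, h⟩
      exact ⟨t, ht, n, hn, fun m hm => (h m hm).symm⟩
  rw [h4, (e6 {p : Finset ℕ × ℕ // LastN p.1 p.2}
    (fun p => {z | p.1.1 ∈ F z} ∩ {z | ∀ m < p.1.2, (m ∈ p.1.1 ↔ w z m = true)})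
    fun p => hK p.1).1] at h3
  refine le_of_iSup h3 fun p => ?_
  refine le_trans ?_ (le_iSup _ (fsN p.1.1))
  refine le_trans ?_ (le_iSup _ (nn p.1.2))
  have hmeas2 : MeasurableSet {z : Pt S | ∀ m < p.1.2, (m ∈ p.1.1 ↔ w z m = true)} := by
    have : {z : Pt S | ∀ m < p.1.2, (m ∈ p.1.1 ↔ w z m = true)} =
        ⋂ m : ℕ, ⋂ _ : m < p.1.2, {z | (m ∈ p.1.1 ↔ w z m = true)} := by
      ext z; simp
    rw [this]
    refine MeasurableSet.iInter fun m => MeasurableSet.iInter fun _ => ?_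
    have hm : MeasurableSet {z : Pt S | w z m = true} :=
      (measurable_pi_iff.mp wm m) (measurableSet_singleton true)
    by_cases hmp : m ∈ p.1.1
    · simpa [hmp] using hm
    · have h9 : {z : Pt S | (m ∈ p.1.1 ↔ w z m = true)} = {z : Pt S | w z m = true}ᶜ := by
        ext z; simp [hmp]
      rw [h9]
      exact hm.compl
  rw [(e5 _ _ (hF _) hmeas2).1]
  refine le_inf ?_ (le_inf ?_ ?_)
  · rw [c2]
    exact le_trans inf_le_right inf_le_left
  · rw [(fn2 L).2.1, bo_true p.2]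
    exact le_top
  · refine tr' ((ex1 L).2.2.2.1 _ _).2.2 (le_trans inf_le_left h1) ?_
    rw [r4 w wm]
    exact le_trans inf_le_right inf_le_right

end Main

theorem nu2 (ehom : G_EHOM) (nat : G_NAT) (_fn1 : G_FN1) (fn2 : G_FN2) (ex1 : G_EX1)
    (exj : G_EXJ) (ex2 : G_EX2) (rea : G_REA) (cdn : G_CDN) (ij2 : G_IJ2) : G_NU2 := by
  intro S L _ e he M F hM hF hG hw
  rw [nullV, hM, top_inf_eq, eq_top_iff]
  refine le_iInf fun κ => ?_
  rw [le_himp_iff, top_inf_eq, (nat L).2.1 κ]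
  refine iSup_le fun k => ?_
  refine le_trans ?_ (le_iSup _ (cdN e (F k)))
  refine le_inf ?_ ?_
  · refine tr' ((ex2 L).1 omN (cdN e (F k))).1 le_rfl ?_
    rw [code ehom nat fn2 ex1 exj cdn ij2 he k (F k) (hF k) (hG k)]
    exact le_top
  · rw [cover ehom nat fn2 ex1 rea cdn he (F k) (hF k) M hM fun w wm => hw w wm k]
    exact le_top

end NU.PkNU2

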